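import Pool.Agent.N929.EG.Dom
import Pool.Agent.N394.EG.Law
import Pool.Agent.TH303.SX2

/-!
# Half-plane self-avoiding walks: regularity to all orders in the number of steps, for the number of
walks, the law of the end point and its moments
-/

set_option autoImplicit false

namespace Pool.Agent.Results.MP_df1d0b_pr.AllOrders

open Filter Topology
open scoped Classical

/-- the three grids -/
inductive Grid
  | square
  | triangular
  | hexagonal

/-- Adjacency of the grids, in coordinates on `ℤ × ℤ` (brick wall for the hexagonal grid). -/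
def Grid.Adj : Grid → ℤ × ℤ → ℤ × ℤ → Prop
  | .square, p, q => |p.1 - q.1| + |p.2 - q.2| = 1
  | .triangular, p, q =>
    q - p ∈ ({(1, 0), (-1, 0), (0, 1), (0, -1), (1, -1), (-1, 1)} : Set (ℤ × ℤ))
  | .hexagonal, p, q => q - p = (1, 0) ∨ q - p = (-1, 0) ∨ (q - p = (0, 1) ∧ Even (p.1 + p.2)) ∨
    (q - p = (0, -1) ∧ Even (q.1 + q.2))

/-- The points of the plane: with these points the edges have length one. -/
noncomputable def Grid.pt : Grid → ℤ × ℤ → ℂ
  | .square, p => ⟨(p.2 : ℝ), (p.1 : ℝ)⟩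
  | .triangular, p => ⟨((p.1 : ℝ) - (p.2 : ℝ)) / 2, √3 / 2 * ((p.1 : ℝ) + (p.2 : ℝ))⟩
  | .hexagonal, p => ⟨(3 * (p.2 : ℝ) - (((p.1 + p.2) % 2 : ℤ) : ℝ)) / 2, √3 / 2 * (p.1 : ℝ)⟩

/-- the vertices in the closed upper half-plane -/
def Grid.Half (G : Grid) (p : ℤ × ℤ) : Prop := 0 ≤ (G.pt p).im

/-- `1` for the triangular grid, `2` for the two bipartite grids -/
def Grid.s : Grid → ℕ
  | .square => 2
  | .triangular => 1
  | .hexagonal => 2

/-- the `n`-step self-avoiding walks from the origin in the set `D` of vertices -/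
def walks (G : Grid) (D : ℤ × ℤ → Prop) (n : ℕ) : Set (Fin (n + 1) → ℤ × ℤ) :=
  {γ | γ 0 = 0 ∧ Function.Injective γ ∧ (∀ i : Fin n, G.Adj (γ i.castSucc) (γ i.succ)) ∧
    ∀ i, D (γ i)}

/-- the probability that the end point of the uniform `n`-step walk in `D` lies in `S` -/
noncomputable def endLaw (G : Grid) (D : ℤ × ℤ → Prop) (S : Set ℂ) (n : ℕ) : ℝ :=
  ({γ ∈ walks G D n | G.pt (γ (Fin.last n)) ∈ S}.ncard : ℝ) / ((walks G D n).ncard : ℝ)

/-- the mean of `|x|^p` for the end point `x` of the uniform `n`-step walk in `D` -/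
noncomputable def moment (G : Grid) (D : ℤ × ℤ → Prop) (p : ℝ) (n : ℕ) : ℝ :=
  (∑ᶠ γ ∈ walks G D n, ‖G.pt (γ (Fin.last n))‖ ^ p) / ((walks G D n).ncard : ℝ)

/-- the difference of order `r` of the sequence `f`, with step `s`, at `n` (up to the sign
`(-1)^r`) -/
noncomputable def diff (s r : ℕ) (f : ℕ → ℝ) (n : ℕ) : ℝ :=
  ∑ i ∈ Finset.range (r + 1), (-1 : ℝ) ^ i * (r.choose i : ℝ) * f (n + s * i)

/-- the rate `((log n)^a / n)^(1/2)` -/
noncomputable def rate (a n : ℕ) : ℝ := √(Real.log n ^ a / n)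

/-- Regularity to all orders, for the walks in `D`: the differences of order `r` of the logarithm of
the number of walks (divided by `μ ^ n`), of the law of the end point (uniformly: the supremum over
`S` is the total variation norm) and of the logarithms of the moments of the end point are at most
of order `((log n)^a / n)^(r/2)`. -/
def Regular (G : Grid) (D : ℤ × ℤ → Prop) (μ : ℝ) (a : ℕ) : Prop :=
  ∀ r : ℕ, 1 ≤ r →
    (∃ C : ℝ, ∀ n : ℕ, 2 ≤ n →
      |diff G.s r (fun m => Real.log (((walks G D m).ncard : ℝ) / μ ^ m)) n| ≤ C * rate a n ^ r ∧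
      ∀ S : Set ℂ, |diff G.s r (endLaw G D S) n| ≤ C * rate a n ^ r) ∧
    ∀ p : ℝ, ∃ C : ℝ, ∀ n : ℕ, 2 ≤ n → 0 < moment G D p n ∧
      |diff G.s r (fun m => Real.log (moment G D p m)) n| ≤ C * rate a n ^ r

/-! ### transfer from the library -/

open Pool.Agent.R965.HP TH966.AK Pool.Agent.N929.EG

theorem pt_zero (G : Grid) : G.pt 0 = 0 := by
  cases G <;> simp [Grid.pt, Complex.ext_iff]

theorem im_le (G : Grid) (p : ℤ × ℤ) : |(G.pt p).im| ≤ |(p.1 : ℝ)| + |(p.2 : ℝ)| := by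
  have h3 : √3 ≤ 2 := by
    rw [Real.sqrt_le_left (by norm_num)]
    norm_num
  have h30 : 0 ≤ √3 / 2 := by positivity
  have h31 : √3 / 2 ≤ 1 := by linarith
  cases G
  · show |(p.1 : ℝ)| ≤ _
    linarith [abs_nonneg (p.2 : ℝ)]
  · show |√3 / 2 * ((p.1 : ℝ) + (p.2 : ℝ))| ≤ _
    rw [abs_mul, abs_of_nonneg h30]
    have := abs_add_le (p.1 : ℝ) (p.2 : ℝ)
    have h := abs_nonneg ((p.1 : ℝ) + (p.2 : ℝ))
    nlinarith
  · show |√3 / 2 * (p.1 : ℝ)| ≤ _
    rw [abs_mul, abs_of_nonneg h30]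
    have h := abs_nonneg (p.1 : ℝ)
    have h' := abs_nonneg (p.2 : ℝ)
    nlinarith

theorem re_le (G : Grid) (p : ℤ × ℤ) :
    |(G.pt p).re| ≤ 2 * (|(p.1 : ℝ)| + |(p.2 : ℝ)|) + 1 := by
  have h := abs_nonneg (p.1 : ℝ)
  have h' := abs_nonneg (p.2 : ℝ)
  cases G
  · show |(p.2 : ℝ)| ≤ _
    linarith
  · show |((p.1 : ℝ) - (p.2 : ℝ)) / 2| ≤ _
    rw [abs_div, abs_two]
    have := abs_sub (p.1 : ℝ) (p.2 : ℝ)
    linarith
  · show |(3 * (p.2 : ℝ) - (((p.1 + p.2) % 2 : ℤ) : ℝ)) / 2| ≤ _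
    have m1 : 0 ≤ (p.1 + p.2) % 2 := Int.emod_nonneg _ (by norm_num)
    have m2 : (p.1 + p.2) % 2 ≤ 1 := by omega
    have m1' : (0 : ℝ) ≤ (((p.1 + p.2) % 2 : ℤ) : ℝ) := by exact_mod_cast m1
    have m2' : (((p.1 + p.2) % 2 : ℤ) : ℝ) ≤ 1 := by exact_mod_cast m2
    rw [abs_div, abs_two]
    have := abs_sub (3 * (p.2 : ℝ)) (((p.1 + p.2) % 2 : ℤ) : ℝ)
    rw [abs_mul, abs_of_pos (show (0 : ℝ) < 3 by norm_num), abs_of_nonneg m1'] at this
    linarith

theorem norm_le (G : Grid) (p : ℤ × ℤ) (n : ℕ) (h1 : |p.1| ≤ n) (h2 : |p.2| ≤ n) :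
    ‖G.pt p‖ ≤ 6 * ((n : ℝ) + 1) := by
  have h1' : |(p.1 : ℝ)| ≤ n := by exact_mod_cast h1
  have h2' : |(p.2 : ℝ)| ≤ n := by exact_mod_cast h2
  have h3 := Complex.norm_le_abs_re_add_abs_im (G.pt p)
  have h4 := im_le G p
  have h5 := re_le G p
  linarith

theorem norm_ge (G : Grid) (p : ℤ × ℤ) (h : p ≠ 0) : 1 / 6 ≤ ‖G.pt p‖ := by
  have hs : (1 / 6 : ℝ) ^ 2 ≤ ‖G.pt p‖ ^ 2 := by
    rw [Complex.sq_norm]
    have h3 : √3 * √3 = (3 : ℝ) := Real.mul_self_sqrt (by norm_num)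
    have hp : p.1 ≠ 0 ∨ p.2 ≠ 0 := by
      by_contra hc
      push Not at hc
      exact h (Prod.ext hc.1 hc.2)
    cases G
    · show _ ≤ (p.2 : ℝ) * (p.2 : ℝ) + (p.1 : ℝ) * (p.1 : ℝ)
      have : 1 ≤ p.2 * p.2 + p.1 * p.1 := by
        rcases hp with hp | hp
        · have := mul_self_pos.2 hp
          have := mul_self_nonneg p.2
          omega
        · have := mul_self_pos.2 hp
          have := mul_self_nonneg p.1
          omega
      have h1 : (1 : ℝ) ≤ (p.2 : ℝ) * (p.2 : ℝ) + (p.1 : ℝ) * (p.1 : ℝ) := by exact_mod_cast this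
      linarith
    · show _ ≤ ((p.1 : ℝ) - (p.2 : ℝ)) / 2 * (((p.1 : ℝ) - (p.2 : ℝ)) / 2) +
        √3 / 2 * ((p.1 : ℝ) + (p.2 : ℝ)) * (√3 / 2 * ((p.1 : ℝ) + (p.2 : ℝ)))
      have e : ((p.1 : ℝ) - (p.2 : ℝ)) / 2 * (((p.1 : ℝ) - (p.2 : ℝ)) / 2) +
          √3 / 2 * ((p.1 : ℝ) + (p.2 : ℝ)) * (√3 / 2 * ((p.1 : ℝ) + (p.2 : ℝ))) =
          (((p.1 : ℝ) - (p.2 : ℝ)) ^ 2 + (√3 * √3) * ((p.1 : ℝ) + (p.2 : ℝ)) ^ 2) / 4 := by ring
      rw [e, h3]
      have h4 : 1 ≤ (p.1 - p.2) ^ 2 + 3 * (p.1 + p.2) ^ 2 := by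
        by_contra hc
        have h5 : (p.1 - p.2) ^ 2 = 0 := by nlinarith [sq_nonneg (p.1 - p.2), sq_nonneg (p.1 + p.2)]
        have h6 : (p.1 + p.2) ^ 2 = 0 := by nlinarith [sq_nonneg (p.1 - p.2), sq_nonneg (p.1 + p.2)]
        have h7 := pow_eq_zero_iff (two_ne_zero) |>.1 h5
        have h8 := pow_eq_zero_iff (two_ne_zero) |>.1 h6
        omega
      have h4' : (1 : ℝ) ≤ ((p.1 : ℝ) - (p.2 : ℝ)) ^ 2 + 3 * ((p.1 : ℝ) + (p.2 : ℝ)) ^ 2 := by
        exact_mod_cast h4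
      linarith
    · show _ ≤ (3 * (p.2 : ℝ) - (((p.1 + p.2) % 2 : ℤ) : ℝ)) / 2 *
        ((3 * (p.2 : ℝ) - (((p.1 + p.2) % 2 : ℤ) : ℝ)) / 2) +
        √3 / 2 * (p.1 : ℝ) * (√3 / 2 * (p.1 : ℝ))
      have e : (3 * (p.2 : ℝ) - (((p.1 + p.2) % 2 : ℤ) : ℝ)) / 2 *
          ((3 * (p.2 : ℝ) - (((p.1 + p.2) % 2 : ℤ) : ℝ)) / 2) +
          √3 / 2 * (p.1 : ℝ) * (√3 / 2 * (p.1 : ℝ)) =
          ((3 * (p.2 : ℝ) - (((p.1 + p.2) % 2 : ℤ) : ℝ)) ^ 2 + (√3 * √3) * (p.1 : ℝ) ^ 2) / 4 := by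
        ring
      rw [e, h3]
      have h4 : 1 ≤ (3 * p.2 - (p.1 + p.2) % 2) ^ 2 + 3 * p.1 ^ 2 := by
        by_contra hc
        have h5 : p.1 ^ 2 = 0 := by
          nlinarith [sq_nonneg (3 * p.2 - (p.1 + p.2) % 2), sq_nonneg p.1]
        have h6 : (3 * p.2 - (p.1 + p.2) % 2) ^ 2 = 0 := by
          nlinarith [sq_nonneg (3 * p.2 - (p.1 + p.2) % 2), sq_nonneg p.1]
        have h7 := pow_eq_zero_iff (two_ne_zero) |>.1 h5
        have h8 := pow_eq_zero_iff (two_ne_zero) |>.1 h6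
        omega
      have h4' : (1 : ℝ) ≤ (3 * (p.2 : ℝ) - (((p.1 + p.2) % 2 : ℤ) : ℝ)) ^ 2 +
          3 * (p.1 : ℝ) ^ 2 := by
        exact_mod_cast h4
      linarith
  exact le_of_sq_le_sq hs (norm_nonneg _)

theorem all_of (hlaw : S_LAW) (G : Grid) (D : ℤ × ℤ → Prop) (h0 : D 0)
    {A : ℤ × ℤ → ℤ × ℤ → Prop}
    (e : G.Adj = A) (Z : Rule A) (hs : Z.s = G.s) {μ : ℝ} {a : ℕ} (ha : 1 ≤ a)
    (H : ∃ K : ℝ, Gr (ruleD Z D).sys μ K a) : Regular G D μ a := by
  subst e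
  obtain ⟨K, H⟩ := H
  have hw : ∀ n, walks G D n = Wk G.Adj D n := fun n => rfl
  have hw' : ∀ n, walks G D n = wks (AD G.Adj D) n := fun n => by rw [hw, Wk_eq h0]
  have hc : ∀ n, ((walks G D n).ncard : ℝ) = ((Kw (AD G.Adj D) n).card : ℝ) := fun n => by
    rw [hw, ncard_Wk Z h0]
    rfl
  have hz : (ruleD Z D).s = G.s := hs
  intro r hr
  refine ⟨?_, fun p => ?_⟩
  · obtain ⟨C1, hC1, g1⟩ := dom_count H ha r hr
    obtain ⟨C2, hC2, g2⟩ := dom_end hlaw H ha r
    rw [hz] at g1 g2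
    refine ⟨C1 + C2, fun n hn => ⟨?_, fun S => ?_⟩⟩
    · have h1 := g1 n hn
      unfold diff rate
      simp only [hc]
      refine h1.trans (mul_le_mul_of_nonneg_right (by linarith) (by positivity))
    · have h2 := g2 n hn (G.pt ⁻¹' S)
      unfold diff rate endLaw
      have e1 : ∀ m, (({γ ∈ walks G D m | G.pt (γ (Fin.last m)) ∈ S}.ncard : ℝ)) =
          (((Kw (AD G.Adj D) m).filter (fun w => lst w ∈ G.pt ⁻¹' S)).card : ℝ) := by
        intro m
        have h3 := ncard_Wk_S Z h0 m (G.pt ⁻¹' S)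
        rw [Finset.sum_boole] at h3
        refine Eq.trans ?_ (h3.trans ?_)
        · rfl
        · rfl
      simp only [e1, hc]
      refine h2.trans (mul_le_mul_of_nonneg_right (by linarith) (by positivity))
  · obtain ⟨hp, h⟩ := dom_moment H ha (fun x => ‖G.pt x‖) 6 (by norm_num)
      (by rw [pt_zero, norm_zero])
      (fun n hn w hw => norm_ge G _ (lst_ne (ruleD Z D) hn hw))
      (fun n w hw => by
        obtain ⟨h1, h2⟩ := lst_le (ruleD Z D) hw
        exact norm_le G _ n h1 h2) p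
    obtain ⟨C, -, h'⟩ := h r hr
    rw [hz] at h'
    have em : ∀ n, moment G D p n = WF (AD G.Adj D) (fun x => ‖G.pt x‖ ^ p) n /
        ((Kw (AD G.Adj D) n).card : ℝ) := by
      intro n
      unfold moment
      rw [hc, hw', sum_wks (ruleD Z D) (fun x => ‖G.pt x‖ ^ p) n]
    refine ⟨C, fun n hn => ⟨?_, ?_⟩⟩
    · rw [em]
      refine div_pos (hp n hn) ?_
      exact H.pos n
    · unfold diff rate
      simp only [em]
      exact h' n hn

theorem root_of (L : H982.Lat) (G : Grid) {A : ℤ × ℤ → ℤ × ℤ → Prop}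
    (e : G.Adj = A) (Z : Rule A) {φ : ℤ × ℤ → ℤ × ℤ} {R : ℕ → ℤ × ℤ → Prop}
    (H : @H982.Coord L A φ R) :
    Tendsto (fun n : ℕ => ((walks G (fun _ => True) n).ncard : ℝ) ^ (1 / (n : ℝ))) atTop
      (𝓝 (@H982.mu L)) := by
  have h1 := @H982.tendsto_root L
  refine h1.congr fun n => ?_
  have h2 : ((walks G (fun _ => True) n).ncard : ℝ) = @H982.cr' L n := by
    subst e
    have h3 : ((walks G (fun _ => True) n).ncard : ℝ) =
        ((Kw (AD G.Adj (fun _ => True)) n).card : ℝ) := by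
      show ((Wk G.Adj (fun _ => True) n).ncard : ℝ) = _
      rw [ncard_Wk Z trivial]
      rfl
    rw [h3, ← card_full Z H n]
    have e2 : AD G.Adj (fun _ => True) = G.Adj := by
      funext p q
      unfold AD
      simp
    rw [e2]
  rw [h2]

theorem dom_of (hlaw : S_LAW) (L : H982.Lat) (G : Grid) {A : ℤ × ℤ → ℤ × ℤ → Prop}
    (e : G.Adj = A) (Z : Rule A) (hs : Z.s = G.s) (hs1 : 1 ≤ Z.s)
    {φ : ℤ × ℤ → ℤ × ℤ} {R : ℕ → ℤ × ℤ → Prop} (H : @H982.Coord L A φ R)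
    (hcl : ∀ D : ℤ × ℤ → Prop, ∀ U U', Z.T U U' → (∀ x ∈ U', D x) → ∀ x ∈ U, D x)
    (hp : ∃ (M0 : ℕ) (ρ C0 : ℝ), 1 ≤ M0 ∧ 0 ≤ ρ ∧ ρ < @H982.mu L ∧ ∀ n : ℕ,
      (((Kw A n).filter (fun w => M0 * (Z.B w).card ≤ n)).card : ℝ) ≤ C0 * ρ ^ n)
    (D : ℤ × ℤ → Prop) (h0 : D 0) (g : ℕ) (K : ℝ) (hg : 2 ≤ g)
    (hlow : ∀ n : ℕ, 2 ≤ n → @H982.mu L ^ n * Real.exp (-(K * Real.log n ^ g)) ≤
      ((walks G D n).ncard : ℝ)) : Regular G D (@H982.mu L) g := by
  refine all_of hlaw G D h0 e Z hs (by omega) (gr_dom Z H hs1 D h0 (hcl D) hp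
    (K := K) hg fun n hn => ?_)
  refine (hlow n hn).trans (le_of_eq ?_)
  subst e
  show ((Wk G.Adj D n).ncard : ℝ) = _
  rw [ncard_Wk Z h0]
  rfl

theorem half_square : Grid.square.Half = fun p => 0 ≤ p.1 := by
  funext p
  show ((0 : ℝ) ≤ (p.1 : ℝ)) = _
  rw [eq_iff_iff]
  exact ⟨fun h => by exact_mod_cast h, fun h => by exact_mod_cast h⟩

theorem half_triangular : Grid.triangular.Half = fun p => 0 ≤ p.1 + p.2 := by
  funext p
  show ((0 : ℝ) ≤ √3 / 2 * ((p.1 : ℝ) + (p.2 : ℝ))) = _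
  have h3 : (0 : ℝ) < √3 / 2 := by positivity
  rw [eq_iff_iff, mul_nonneg_iff_of_pos_left h3]
  exact ⟨fun h => by exact_mod_cast h, fun h => by exact_mod_cast h⟩

theorem half_hexagonal : Grid.hexagonal.Half = fun p => 0 ≤ p.1 := by
  funext p
  show ((0 : ℝ) ≤ √3 / 2 * (p.1 : ℝ)) = _
  have h3 : (0 : ℝ) < √3 / 2 := by positivity
  rw [eq_iff_iff, mul_nonneg_iff_of_pos_left h3]
  exact ⟨fun h => by exact_mod_cast h, fun h => by exact_mod_cast h⟩

/-- **Theorem.** For each of the three grids let `μ` be the connective constant, and `s = 2` for the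
square and the hexagonal grid, `s = 1` for the triangular grid.
(1) For the self-avoiding walks from `0` in the closed upper half-plane and every `r ≥ 1` the
differences of order `r` (with step `s` in the number `n` of steps) are `O((log n / √n)^r)`, for
* the logarithm of the number `h_n` of walks (divided by `μ ^ n`),
* the law of the end point, uniformly in the event (total variation),
* the logarithm of the mean of `|x|^p` for the end point `x`, for every real `p`.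
(2) The same with `(log n)^a` in place of `(log n)^2`, for the square and the triangular grid and
every set `D` of vertices which contains `0` and has at least `μ ^ n exp (- K (log n)^a)` walks with
`n` steps for all `n ≥ 2` (`a ≥ 2`).
(3) On the square grid this holds with `a = 3` for every `D` which contains the points with
`|x| ≤ η y`, for some `0 < η ≤ 1`. -/
theorem result : ∀ G : Grid, ∃ μ : ℝ, 0 < μ ∧
    Tendsto (fun n : ℕ => ((walks G (fun _ => True) n).ncard : ℝ) ^ (1 / (n : ℝ))) atTop (𝓝 μ) ∧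
    Regular G G.Half μ 2 ∧
    (G ≠ .hexagonal → ∀ D : ℤ × ℤ → Prop, D 0 → ∀ (a : ℕ) (K : ℝ), 2 ≤ a →
      (∀ n : ℕ, 2 ≤ n → μ ^ n * Real.exp (-(K * Real.log n ^ a)) ≤
        ((walks G D n).ncard : ℝ)) → Regular G D μ a) ∧
    (G = .square → ∀ η : ℝ, 0 < η → η ≤ 1 → ∀ D : ℤ × ℤ → Prop,
      (∀ p : ℤ × ℤ, |(G.pt p).re| ≤ η * (G.pt p).im → D p) → Regular G D μ 3) := by
  have hlaw : S_LAW := Pool.Agent.N394.EG.law
  have esq : Grid.square.Adj = Pool.Agent.R965.HP.Sq.A := rfl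
  have etri : Grid.triangular.Adj = TH966.AK.Tri.A := TH966.AK.adjT_eq
  have ehex : Grid.hexagonal.Adj = TH966.AK.Hex.A := rfl
  obtain ⟨φ, R, htri, -⟩ := Pool.Agent.R965.HP.coord_triA
  have hdsq := dom_of hlaw H982P.sqL .square esq Pool.Agent.R965.HP.Sq.rule rfl
    (show 1 ≤ 2 by norm_num) H982P.coord_sq Pool.Agent.R965.HP.sq_cl
    Pool.Agent.R965.HP.sq_poor
  intro G
  cases G with
  | square =>
    refine ⟨@H982.mu H982P.sqL, @H982.mu_pos H982P.sqL,
      root_of H982P.sqL .square esq Pool.Agent.R965.HP.Sq.rule H982P.coord_sq, ?_,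
      fun _ => hdsq, ?_⟩
    · rw [half_square]
      exact all_of hlaw .square _ (show (0 : ℤ) ≤ 0 from le_rfl) esq
        Pool.Agent.R965.HP.Sq.rule rfl one_le_two Pool.Agent.R965.HP.half_sq
    · intro _ η hη hη1 D hD
      have hD' : ∀ p : ℤ × ℤ, |(p.2 : ℝ)| ≤ η * (p.1 : ℝ) → D p := hD
      have h0 : D 0 := hD' 0 (by simp)
      obtain ⟨K, hK⟩ := Pool.Agent.TH303.SX2.wedge_final
      refine hdsq D h0 3 (K / η) (by norm_num) fun n hn => ?_
      have h1 := hK η hη hη1 n hn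
      have hw : ((Pool.Agent.H122R3.SX.walks n).ncard : ℝ) = @H982.cr' H982P.sqL n := by
        rw [← @H982.ncard_walks H982P.sqL _ _ _ H982P.coord_sq]
        rfl
      have h2 := @H982.mu_pow_le H982P.sqL n
      rw [← hw] at h2
      have hmp : 0 < @H982.mu H982P.sqL ^ n := pow_pos (@H982.mu_pos H982P.sqL) n
      have hpos : (0 : ℝ) < ((Pool.Agent.H122R3.SX.walks n).ncard : ℝ) := hmp.trans_le h2
      rw [le_div_iff₀ hpos] at h1
      have hfin : (Wk Pool.Agent.R965.HP.Sq.A D n).Finite :=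
        Wk_finite Pool.Agent.R965.HP.Sq.rule h0 n
      have h3 : ({f | f ∈ Pool.Agent.H122R3.SX.walks n ∧
          ∀ i, |((f i).1 : ℝ)| ≤ η * (f i).2}.ncard : ℝ) ≤
          ((Wk Pool.Agent.R965.HP.Sq.A D n).ncard : ℝ) := by
        have hinj : Function.Injective (fun f : Fin (n + 1) → ℤ × ℤ => fun i => (f i).swap) := by
          intro f f' h
          funext i
          have := congrFun h i
          exact Prod.swap_injective this
        have hsub : (fun f : Fin (n + 1) → ℤ × ℤ => fun i => (f i).swap) ''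
            {f | f ∈ Pool.Agent.H122R3.SX.walks n ∧ ∀ i, |((f i).1 : ℝ)| ≤ η * (f i).2} ⊆
            Wk Pool.Agent.R965.HP.Sq.A D n := by
          rintro _ ⟨f, hf, rfl⟩
          refine ⟨?_, ?_, fun i => ?_, fun i => hD' _ (hf.2 i)⟩
          · show (f 0).swap = 0
            rw [hf.1.1]
            rfl
          · intro i j hij
            exact hf.1.2.1 (Prod.swap_injective hij)
          · have h4 := hf.1.2.2 i
            show |(f i.castSucc).2 - (f i.succ).2| + |(f i.castSucc).1 - (f i.succ).1| = 1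
            rw [add_comm]
            exact h4
        rw [← Set.ncard_image_of_injective _ hinj]
        exact_mod_cast Set.ncard_le_ncard hsub hfin
      refine le_trans ?_ (h1.trans h3)
      rw [mul_comm]
      exact mul_le_mul_of_nonneg_left h2 (Real.exp_pos _).le
  | triangular =>
    have h00 : (0 : ℤ) ≤ 0 + 0 := by norm_num
    refine ⟨@H982.mu H982P.triL, @H982.mu_pos H982P.triL,
      root_of H982P.triL .triangular etri TH966.AK.Tri.rule htri, ?_, fun _ => ?_,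
      (fun h => by cases h)⟩
    · rw [half_triangular]
      exact all_of hlaw .triangular _ h00 etri TH966.AK.Tri.rule rfl one_le_two
        Pool.Agent.R965.HP.half_tri
    · exact dom_of hlaw H982P.triL .triangular etri TH966.AK.Tri.rule rfl
        (show 1 ≤ 1 by norm_num) htri Pool.Agent.R965.HP.tri_cl Pool.Agent.R965.HP.tri_poor
  | hexagonal =>
    refine ⟨Real.sqrt (2 + Real.sqrt 2), by positivity, ?_, ?_, fun h => absurd rfl h,
      (fun h => by cases h)⟩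
    · have h1 := root_of H982P.hexL .hexagonal ehex TH966.AK.Hex.rule H982P.coord_hex
      rw [Pool.Agent.H976R3.HPL.mu_hex] at h1
      exact h1
    · rw [half_hexagonal]
      exact all_of hlaw .hexagonal _ (show (0 : ℤ) ≤ 0 from le_rfl) ehex TH966.AK.Hex.rule rfl
        one_le_two Pool.Agent.R965.HP.half_hex

end Pool.Agent.Results.MP_df1d0b_pr.AllOrders
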