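import Pool.Agent.N941.HS.Meas

/-!
The infinite half-plane self-avoiding walk on `ℤ²`, scaled by `s`, is close to any given simple
curve from `0` to `∞` in the closed half-plane with at least quasi-polynomial probability in `1/s`.
-/

set_option autoImplicit false

namespace Pool.Agent.Results.MP_df1d0b_pr.ChordalSupport

open Filter Topology MeasureTheory

/-- The square lattice `ℤ²` in the plane. -/
def Z2 : Set ℂ := {z | ∃ a b : ℤ, z = a + b * Complex.I}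

/-- The `n`-step self-avoiding walks from `0` on `ℤ²` in the closed upper half-plane (a walk is
continued by its last point). -/
def HalfWalks (n : ℕ) : Set (ℕ → ℂ) :=
  {γ | γ 0 = 0 ∧ (∀ i, γ i ∈ Z2 ∧ 0 ≤ (γ i).im) ∧ (∀ i < n, ‖γ (i + 1) - γ i‖ = 1) ∧
    (∀ i ≤ n, ∀ j ≤ n, γ i = γ j → i = j) ∧ ∀ i, n ≤ i → γ i = γ n}

/-- `μ` is the infinite half-plane self-avoiding walk: the weak limit of the uniform measures on the
`n`-step walks. -/
def IsHalfPlaneSAW (μ : Measure (ℕ → ℂ)) : Prop :=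
  IsProbabilityMeasure μ ∧ ∀ F : BoundedContinuousFunction (ℕ → ℂ) ℝ,
    Tendsto (fun n => (∑ᶠ γ ∈ HalfWalks n, F γ) / ((HalfWalks n).ncard : ℝ)) atTop
      (𝓝 (∫ γ, F γ ∂μ))

/-- The walk as a polygonal path at the real time `x ≥ 0`. -/
noncomputable def pos (γ : ℕ → ℂ) (x : ℝ) : ℂ :=
  γ ⌊x⌋₊ + ((x - ⌊x⌋₊ : ℝ) : ℂ) * (γ (⌊x⌋₊ + 1) - γ ⌊x⌋₊)

/-- The chordal distance on the Riemann sphere. -/
noncomputable def sph (z w : ℂ) : ℝ := ‖z - w‖ / (√(1 + ‖z‖ ^ 2) * √(1 + ‖w‖ ^ 2))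

/-- The simple curves from `0` to `∞` in the closed upper half-plane. -/
structure Chordal (Γ : ℝ → ℂ) : Prop where
  cont : ContinuousOn Γ (Set.Ici 0)
  inj : Set.InjOn Γ (Set.Ici 0)
  zero : Γ 0 = 0
  im : ∀ t, 0 ≤ t → 0 ≤ (Γ t).im
  infty : Tendsto (fun t => ‖Γ t‖) atTop atTop

/-- The paths `α` and `Γ`, for the times in `[0, ∞)`, are at distance at most `ε` for the spherical
metric, uniformly in time up to a reparametrization `φ : [0, ∞) → [0, ∞)`. -/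
def Close (α Γ : ℝ → ℂ) (ε : ℝ) : Prop :=
  ∃ φ : ℝ → ℝ, Continuous φ ∧ StrictMono φ ∧ φ 0 = 0 ∧ Tendsto φ atTop atTop ∧
    ∀ t, 0 ≤ t → sph (α (φ t)) (Γ t) ≤ ε

theorem sph_le (z w : ℂ) : sph z w ≤ ‖z - w‖ := by
  unfold sph
  apply div_le_self (norm_nonneg _)
  have h1 : 1 ≤ √(1 + ‖z‖ ^ 2) := by
    rw [Real.one_le_sqrt]
    nlinarith [sq_nonneg ‖z‖]
  have h2 : 1 ≤ √(1 + ‖w‖ ^ 2) := by
    rw [Real.one_le_sqrt]
    nlinarith [sq_nonneg ‖w‖]
  nlinarith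

theorem sph_far {z w : ℂ} {r : ℝ} (hr : 0 < r) (hz : r ≤ ‖z‖) (hw : r ≤ ‖w‖) :
    sph z w ≤ 2 / r := by
  unfold sph
  have hz0 : 0 < ‖z‖ := lt_of_lt_of_le hr hz
  have hw0 : 0 < ‖w‖ := lt_of_lt_of_le hr hw
  have h1 : ‖z‖ ≤ √(1 + ‖z‖ ^ 2) := Real.le_sqrt_of_sq_le (by linarith)
  have h2 : ‖w‖ ≤ √(1 + ‖w‖ ^ 2) := Real.le_sqrt_of_sq_le (by linarith)
  have h3 := norm_sub_le z w
  have h4 : ‖z‖ * ‖w‖ ≤ √(1 + ‖z‖ ^ 2) * √(1 + ‖w‖ ^ 2) := by gcongr
  calc ‖z - w‖ / (√(1 + ‖z‖ ^ 2) * √(1 + ‖w‖ ^ 2)) ≤ (‖z‖ + ‖w‖) / (‖z‖ * ‖w‖) := by gcongr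
    _ = 1 / ‖w‖ + 1 / ‖z‖ := by field_simp
    _ ≤ 1 / r + 1 / r := by gcongr
    _ = 2 / r := by ring

/-- the first time at which a large circle is hit -/
theorem Chordal.hit {Γ : ℝ → ℂ} (h : Chordal Γ) (R1 : ℝ) : ∃ T : ℝ, 0 < T ∧
    (∀ t, 0 ≤ t → t < T → ‖Γ t‖ < ‖Γ T‖) ∧ ∀ t, T ≤ t → R1 ≤ ‖Γ t‖ := by
  obtain ⟨T1, hT1⟩ := (eventually_atTop.1 (h.infty.eventually_ge_atTop R1))
  obtain ⟨T1', hT1'⟩ : ∃ T1', T1' = max T1 0 := ⟨_, rfl⟩
  have hT0 : 0 ≤ T1' := by rw [hT1']; exact le_max_right _ _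
  have hcn : ContinuousOn (fun t => ‖Γ t‖) (Set.Ici 0) := h.cont.norm
  have hc : ContinuousOn (fun t => ‖Γ t‖) (Set.Icc 0 T1') := hcn.mono Set.Icc_subset_Ici_self
  obtain ⟨t0, -, hmax⟩ := isCompact_Icc.exists_isMaxOn (Set.nonempty_Icc.2 hT0) hc
  obtain ⟨B, hB⟩ : ∃ B, B = ‖Γ t0‖ := ⟨_, rfl⟩
  have hBle : ∀ t ∈ Set.Icc 0 T1', ‖Γ t‖ ≤ B := fun t ht => by rw [hB]; exact hmax ht
  obtain ⟨S, hS⟩ : ∃ S : Set ℝ, S = Set.Ici 0 ∩ (fun t => ‖Γ t‖) ⁻¹' Set.Ici (B + 1) := ⟨_, rfl⟩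
  have hSc : IsClosed S := by
    rw [hS]
    exact hcn.preimage_isClosed_of_isClosed isClosed_Ici isClosed_Ici
  have hSn : S.Nonempty := by
    obtain ⟨T2, hT2⟩ := (eventually_atTop.1 (h.infty.eventually_ge_atTop (B + 1)))
    refine ⟨max T2 0, ?_⟩
    rw [hS]
    exact ⟨Set.mem_Ici.2 (le_max_right _ _), hT2 _ (le_max_left _ _)⟩
  have hSb : BddBelow S := ⟨0, fun t ht => by rw [hS] at ht; exact ht.1⟩
  obtain ⟨T, hT⟩ : ∃ T, T = sInf S := ⟨_, rfl⟩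
  have hTS : T ∈ S := by rw [hT]; exact hSc.csInf_mem hSn hSb
  have hTm : ∀ t, 0 ≤ t → t < T → ‖Γ t‖ < B + 1 := by
    intro t ht htT
    by_contra hc
    have : t ∈ S := by
      rw [hS]
      exact ⟨ht, not_lt.1 hc⟩
    have := csInf_le hSb this
    rw [← hT] at this
    linarith
  rw [hS] at hTS
  obtain ⟨hT00, hTB⟩ := hTS
  have hTB' : B + 1 ≤ ‖Γ T‖ := hTB
  have hT1T : T1' < T := by
    by_contra hc
    have := hBle T ⟨hT00, not_lt.1 hc⟩
    linarith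
  refine ⟨T, by linarith, ?_, ?_⟩
  · intro t ht htT
    exact lt_of_lt_of_le (hTm t ht htT) hTB'
  · intro t ht
    apply hT1
    have : T1 ≤ T1' := by rw [hT1']; exact le_max_left _ _
    linarith

open Pool.Agent.N941.SP in
theorem close_of {Γ : ℝ → ℂ} {T R1 ε s : ℝ} (hT : 0 < T) (hR1 : 0 < R1) (hR1ε : 2 / R1 ≤ ε)
    (hfar : ∀ t, T ≤ t → R1 ≤ ‖Γ t‖) {γ : C(unitInterval, ℂ)}
    (hγ : ∀ t : ℝ, 0 ≤ t → t ≤ T → cv γ (t / T) = Γ t)
    (hs : 0 < s) (hsε : s ≤ ε / 2) {η : ℝ} (hη : η + s ≤ ε) (hηR : R1 + η + s ≤ ‖γ 1‖)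
    {N k' : ℕ} (hk' : 1 ≤ k') (hk'N : k' ≤ N) {b : ℕ → ℤ × ℤ}
    (h1 : ∀ k ≤ k', ∀ t : ℝ, |t - (k : ℝ) / k'| ≤ 1 / k' → ‖(s : ℂ) * pt (b k) - cv γ t‖ ≤ η)
    (h2 : ∀ k, k' ≤ k → k ≤ N → ‖γ 1‖ - η ≤ ‖(s : ℂ) * pt (b k)‖)
    (h3 : ‖γ 1‖ - η ≤ s * ((b N).2 : ℝ))
    {g : ℕ → ℂ} (hg : g ∈ CI N b) (hstep : ∀ i, ‖g (i + 1) - g i‖ = 1) :
    Close (fun x => (s : ℂ) * pos g x) Γ ε := by
  have hk'r : (0 : ℝ) < k' := by exact_mod_cast (by omega : 0 < k')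
  have hnear : ∀ x : ℝ, 0 ≤ x → ‖pos g x - g ⌊x⌋₊‖ ≤ 1 := by
    intro x hx
    unfold pos
    rw [add_sub_cancel_left, norm_mul, Complex.norm_real, Real.norm_eq_abs, hstep, mul_one, abs_le]
    have a1 := Nat.floor_le hx
    have a2 := Nat.lt_floor_add_one x
    constructor <;> linarith
  refine ⟨fun t => k' / T * min t T + max 0 (t - T), ?_, ?_, ?_, ?_, ?_⟩
  · fun_prop
  · intro t t' htt
    simp only
    have hkT : 0 < (k' : ℝ) / T := by positivity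
    rcases lt_or_ge t' T with h | h
    · rw [min_eq_left h.le, min_eq_left (by linarith : t ≤ T), max_eq_left (by linarith),
        max_eq_left (by linarith)]
      have := mul_lt_mul_of_pos_left htt hkT
      linarith
    · rw [min_eq_right h, max_eq_right (by linarith : 0 ≤ t' - T)]
      rcases lt_or_ge t T with h' | h'
      · rw [min_eq_left h'.le, max_eq_left (by linarith)]
        have := mul_lt_mul_of_pos_left h' hkT
        linarith
      · rw [min_eq_right h', max_eq_right (by linarith)]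
        linarith
  · simp only
    rw [min_eq_left hT.le, max_eq_left (by linarith)]
    ring
  · have h4 : Tendsto (fun t : ℝ => (k' : ℝ) + (t - T)) atTop atTop :=
      tendsto_atTop_add_const_left _ _ (tendsto_atTop_add_const_right _ _ tendsto_id)
    refine h4.congr' ?_
    filter_upwards [eventually_ge_atTop T] with t ht
    rw [min_eq_right ht, max_eq_right (by linarith)]
    field_simp
  · intro t ht
    simp only
    rcases le_or_gt t T with h | h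
    · rw [min_eq_left h, max_eq_left (by linarith), add_zero]
      obtain ⟨x, hx⟩ : ∃ x, x = (k' : ℝ) / T * t := ⟨_, rfl⟩
      rw [← hx]
      have hx0 : 0 ≤ x := by rw [hx]; positivity
      have hxk : x ≤ k' := by
        rw [hx, div_mul_eq_mul_div, div_le_iff₀ hT]
        exact mul_le_mul_of_nonneg_left h hk'r.le
      have hfl : ⌊x⌋₊ ≤ k' := by
        have := Nat.floor_le_floor hxk
        rwa [Nat.floor_natCast] at this
      have a1 := Nat.floor_le hx0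
      have a2 := Nat.lt_floor_add_one x
      have hxt : x = k' * (t / T) := by rw [hx]; ring
      have b1 := h1 ⌊x⌋₊ hfl (t / T) (by
        have e : t / T - (⌊x⌋₊ : ℝ) / k' = (x - ⌊x⌋₊) / k' := by
          rw [hxt]
          field_simp
        rw [e, abs_div, abs_of_pos hk'r]
        apply div_le_div_of_nonneg_right _ hk'r.le
        rw [abs_le]
        constructor <;> linarith)
      rw [hγ t ht h] at b1
      have b2 := hnear x hx0
      rw [← hg.1 ⌊x⌋₊ (hfl.trans hk'N)] at b1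
      refine (sph_le _ _).trans ?_
      have e : (s : ℂ) * pos g x - Γ t = (s : ℂ) * (pos g x - g ⌊x⌋₊) +
          ((s : ℂ) * g ⌊x⌋₊ - Γ t) := by ring
      rw [e]
      refine (norm_add_le _ _).trans ?_
      rw [norm_mul, Complex.norm_real, Real.norm_eq_abs, abs_of_pos hs]
      have : s * ‖pos g x - g ⌊x⌋₊‖ ≤ s * 1 := by gcongr
      linarith
    · rw [min_eq_right h.le, max_eq_right (by linarith)]
      obtain ⟨x, hx⟩ : ∃ x, x = (k' : ℝ) / T * T + (t - T) := ⟨_, rfl⟩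
      rw [← hx]
      have hxk : (k' : ℝ) ≤ x := by
        rw [hx, div_mul_cancel₀ _ hT.ne']
        linarith
      have hx0 : 0 ≤ x := by linarith
      have hfl : k' ≤ ⌊x⌋₊ := Nat.le_floor hxk
      have b2 := hnear x hx0
      have hbig : ‖γ 1‖ - η ≤ ‖(s : ℂ) * g ⌊x⌋₊‖ := by
        rcases le_total ⌊x⌋₊ N with h5 | h5
        · rw [hg.1 _ h5]
          exact h2 _ hfl h5
        · have h6 := hg.2 _ h5
          have h7 := Complex.im_le_norm (g ⌊x⌋₊)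
          rw [norm_mul, Complex.norm_real, Real.norm_eq_abs, abs_of_pos hs]
          have h8 : s * ((b N).2 : ℝ) ≤ s * ‖g ⌊x⌋₊‖ := by
            apply mul_le_mul_of_nonneg_left _ hs.le
            linarith
          linarith
      have hz : R1 ≤ ‖(s : ℂ) * pos g x‖ := by
        have e : (s : ℂ) * g ⌊x⌋₊ = (s : ℂ) * pos g x - (s : ℂ) * (pos g x - g ⌊x⌋₊) := by ring
        have h9 := norm_sub_le ((s : ℂ) * pos g x) ((s : ℂ) * (pos g x - g ⌊x⌋₊))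
        rw [← e, norm_mul (s : ℂ) (pos g x - g ⌊x⌋₊), Complex.norm_real, Real.norm_eq_abs,
          abs_of_pos hs] at h9
        have : s * ‖pos g x - g ⌊x⌋₊‖ ≤ s * 1 := by gcongr
        linarith
      exact (sph_far hR1 hz (hfar t h.le)).trans hR1ε

open Pool.Agent.N941.SP in
/-- **Theorem.** The infinite half-plane self-avoiding walk `μ` on `ℤ²` (the weak limit of the
uniform measures on `n`-step walks) exists, and for every simple curve `Γ` from `0` to `∞` in the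
closed upper half-plane and every `ε > 0` there are `K` and `s₀ > 0` such that for all `0 < s ≤ s₀`
the walk scaled by `s` is at distance at most `ε` from `Γ`, for the uniform spherical distance up to
reparametrization, with probability at least `exp (- K (log (1 / s))^3)`. -/
theorem result : ∃ μ : Measure (ℕ → ℂ), IsHalfPlaneSAW μ ∧
    ∀ Γ : ℝ → ℂ, Chordal Γ → ∀ ε : ℝ, 0 < ε → ∃ K s₀ : ℝ, 0 < s₀ ∧ ∀ s : ℝ, 0 < s → s ≤ s₀ →
      Real.exp (-(K * Real.log (1 / s) ^ 3)) ≤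
        μ.real {γ | Close (fun x => (s : ℂ) * pos γ x) Γ ε} := by
  obtain ⟨μ, hμ, hsupp, -, hlim⟩ := concl_sq
  refine ⟨μ, ⟨hμ, hlim⟩, fun Γ hΓ ε hε => ?_⟩
  have hLaw : Law μ := ⟨hμ, hsupp, hlim⟩
  obtain ⟨R1, hR1⟩ : ∃ R1, R1 = 2 / ε := ⟨_, rfl⟩
  have hR10 : 0 < R1 := by rw [hR1]; positivity
  have hR1ε : 2 / R1 ≤ ε := by rw [hR1]; field_simp; exact le_rfl
  obtain ⟨T, hT, hTm, hTf⟩ := hΓ.hit (R1 + ε)
  obtain ⟨γ, hγ⟩ : ∃ γ : C(unitInterval, ℂ), ∀ t : unitInterval, γ t = Γ (T * t) :=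
    ⟨⟨fun t => Γ (T * t), by
      refine hΓ.cont.comp_continuous (by fun_prop) fun t => ?_
      exact mul_nonneg hT.le t.2.1⟩, fun t => rfl⟩
  have hinj : Function.Injective γ := by
    intro t t' h
    rw [hγ, hγ] at h
    have := hΓ.inj (mul_nonneg hT.le t.2.1) (mul_nonneg hT.le t'.2.1) h
    exact Subtype.ext (mul_left_cancel₀ hT.ne' this)
  have h0 : γ 0 = 0 := by
    rw [hγ]
    simp [hΓ.zero]
  have him : ∀ t, 0 ≤ (γ t).im := fun t => by
    rw [hγ]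
    exact hΓ.im _ (mul_nonneg hT.le t.2.1)
  have hγ1 : γ 1 = Γ T := by
    rw [hγ]
    simp
  have hex : ∀ t : unitInterval, t ≠ 1 → ‖γ t‖ < ‖γ 1‖ := by
    intro t ht
    rw [hγ1, hγ]
    apply hTm _ (mul_nonneg hT.le t.2.1)
    have h1 : (t : ℝ) < 1 := lt_of_le_of_ne t.2.2 (fun hc => ht (Subtype.ext hc))
    nlinarith
  have hcv : ∀ t : ℝ, 0 ≤ t → t ≤ T → cv γ (t / T) = Γ t := by
    intro t ht htT
    rw [cv_of_mem γ ⟨by positivity, by rw [div_le_one hT]; exact htT⟩, hγ]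
    simp only
    congr 1
    field_simp
  have hbig : R1 + ε ≤ ‖γ 1‖ := by
    rw [hγ1]
    exact hTf T le_rfl
  obtain ⟨μ0, K0, hB⟩ := Pool.Agent.TH303.SX2.exists_Bd
  obtain ⟨K, s0, hs0, hs01, hfam⟩ := fam hB hinj h0 him hex (half_pos hε)
  refine ⟨K, min s0 (ε / 2), by positivity, fun s hs hss => ?_⟩
  obtain ⟨N, k', F, hN, hk'1, hk'N, hF, hFd, hcard⟩ := hfam s hs (hss.trans (min_le_left _ _))
  have hsε : s ≤ ε / 2 := hss.trans (min_le_right _ _)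
  have h1 := fam_ge hLaw hN F (fun b hb => (hF b hb).1) hFd
  rw [Pool.Agent.N941.SP.Bd.mu_eq hB] at hcard
  have hmp : 0 < Pool.Agent.R965.HP.muS ^ N := pow_pos muS_pos N
  have h2 : Real.exp (-(K * Real.log (1 / s) ^ 3)) ≤
      F.card * (Pool.Agent.R965.HP.muS ^ N)⁻¹ := by
    rw [← div_eq_mul_inv, le_div_iff₀ hmp, mul_comm]
    exact hcard
  refine h2.trans (h1.trans ?_)
  unfold Measure.real
  apply ENNReal.toReal_mono (measure_ne_top μ _)
  apply measure_mono_ae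
  filter_upwards [hsupp] with g hg hmem
  have hmem' : g ∈ ⋃ b ∈ F, CI N b := hmem
  rw [Set.mem_iUnion₂] at hmem'
  obtain ⟨b, hb, hgb⟩ := hmem'
  obtain ⟨-, c1, c2, c3⟩ := hF b hb
  exact close_of hT hR10 hR1ε (fun t ht => by have := hTf t ht; linarith) hcv hs hsε
    (η := ε / 2) (by linarith) (by linarith) hk'1 hk'N c1 c2 c3 hgb hg.2.2.1

end Pool.Agent.Results.MP_df1d0b_pr.ChordalSupport
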