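import Pool.Agent.N932.FL.Half

/-!
# The half-plane self-avoiding walk forgets the boundary and its remote past

Uniform `n`-step self-avoiding walks `ω` from `0` in the closed upper half-plane of the square, the
triangular and the hexagonal grid (and, more generally, uniform elements of any set `A` of `n`-step
walks with `|A| ≥ e^{-E} c_n`).  The law of the next `m` steps given the walk up to time `t` is
compared with the law of the next `m` steps of a uniform walk with `n - a` steps in the whole grid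
which begins with the piece `ω[a, t]`: the half-plane and the first `a` steps are erased.
-/

set_option autoImplicit false

namespace Pool.Agent.Results.MP_df1d0b_pr.ForgetsBoundary

open scoped Classical

/-- the three grids -/
inductive Grid
  | square
  | triangular
  | hexagonal

/-- Adjacency of the grids, in coordinates on `ℤ × ℤ` (brick wall for the hexagonal grid). -/
def Grid.Adj : Grid → ℤ × ℤ → ℤ × ℤ → Prop
  | .square, p, q => |p.1 - q.1| + |p.2 - q.2| = 1
  | .triangular, p, q =>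
    q - p ∈ ({(1, 0), (-1, 0), (0, 1), (0, -1), (1, -1), (-1, 1)} : Set (ℤ × ℤ))
  | .hexagonal, p, q => q - p = (1, 0) ∨ q - p = (-1, 0) ∨ (q - p = (0, 1) ∧ Even (p.1 + p.2)) ∨
    (q - p = (0, -1) ∧ Even (q.1 + q.2))

/-- The points of the plane: with these points the edges have length one. -/
noncomputable def Grid.pt : Grid → ℤ × ℤ → ℂ
  | .square, p => ⟨(p.2 : ℝ), (p.1 : ℝ)⟩
  | .triangular, p => ⟨((p.1 : ℝ) - (p.2 : ℝ)) / 2, √3 / 2 * ((p.1 : ℝ) + (p.2 : ℝ))⟩
  | .hexagonal, p => ⟨(3 * (p.2 : ℝ) - (((p.1 + p.2) % 2 : ℤ) : ℝ)) / 2, √3 / 2 * (p.1 : ℝ)⟩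

/-- The sign of a vertex: `x ↦ sgn v • (x - v)` is an automorphism of the grid which maps `v` to
the origin (a translation, or, for the odd vertices of the hexagonal grid, a rotation by `π`). -/
def Grid.sgn : Grid → ℤ × ℤ → ℤ
  | .square, _ => 1
  | .triangular, _ => 1
  | .hexagonal, v => if Even (v.1 + v.2) then 1 else -1

/-- the `n`-step self-avoiding walks from the origin -/
def walks (G : Grid) (n : ℕ) : Set (Fin (n + 1) → ℤ × ℤ) :=
  {ω | ω 0 = 0 ∧ Function.Injective ω ∧ ∀ i : Fin n, G.Adj (ω i.castSucc) (ω i.succ)}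

/-- those which stay in the closed upper half-plane -/
def halfWalks (G : Grid) (n : ℕ) : Set (Fin (n + 1) → ℤ × ℤ) :=
  {ω ∈ walks G n | ∀ i, 0 ≤ (G.pt (ω i)).im}

/-- The mean under the uniform probability measure on the set `A` of walks. -/
noncomputable def mean {n : ℕ} (A : Set (Fin (n + 1) → ℤ × ℤ))
    (f : (Fin (n + 1) → ℤ × ℤ) → ℝ) : ℝ :=
  (∑ᶠ ω ∈ A, f ω) / A.ncard

/-- The probability of `B` under the uniform probability measure on the set `A` of walks. -/
noncomputable def prob {n : ℕ} (A B : Set (Fin (n + 1) → ℤ × ℤ)) : ℝ :=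
  mean A (fun ω => if ω ∈ B then 1 else 0)

/-- The piece with `m` steps which starts at time `i`, moved to the origin:
`k ↦ sgn (ω i) • (ω(i + k) - ω(i))`. (It is only used for `i + m ≤ n`, when the minima play no
role.) -/
def piece (G : Grid) {n : ℕ} (i m : ℕ) (ω : Fin (n + 1) → ℤ × ℤ) : Fin (m + 1) → ℤ × ℤ :=
  fun k => G.sgn (ω ⟨min i n, by omega⟩) •
    (ω ⟨min (i + k.1) n, by omega⟩ - ω ⟨min i n, by omega⟩)

/-- For a uniform element of the set `A` of walks, the conditional probability that the `m` steps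
after time `i` are `ζ`, given that the first `i` steps are `u`. -/
noncomputable def cont (G : Grid) {N : ℕ} (A : Set (Fin (N + 1) → ℤ × ℤ)) (i m : ℕ)
    (u : Fin (i + 1) → ℤ × ℤ) (ζ : Fin (m + 1) → ℤ × ℤ) : ℝ :=
  (({η ∈ A | piece G 0 i η = u ∧ piece G i m η = ζ}).ncard : ℝ) /
    (({η ∈ A | piece G 0 i η = u}).ncard : ℝ)

/-- The growth law: the law of the `m` steps after time `t` of the uniform element of `A`, given
the whole walk `ω` up to time `t`. -/
noncomputable def growth (G : Grid) {n : ℕ} (A : Set (Fin (n + 1) → ℤ × ℤ)) (t m : ℕ)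
    (ω : Fin (n + 1) → ℤ × ℤ) (ζ : Fin (m + 1) → ℤ × ℤ) : ℝ :=
  cont G A t m (piece G 0 t ω) ζ

/-- The free growth law: the law of the `m` steps after time `t - a` of the uniform walk with
`n - a` steps in the whole grid which begins with the piece of `ω` between the times `a` and
`t`. -/
noncomputable def free (G : Grid) {n : ℕ} (a t m : ℕ)
    (ω : Fin (n + 1) → ℤ × ℤ) (ζ : Fin (m + 1) → ℤ × ℤ) : ℝ :=
  cont G (walks G (n - a)) (t - a) m (piece G a (t - a) ω) ζ

/-- The relative entropy of the growth law with respect to the free growth law. -/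
noncomputable def KL (G : Grid) {n : ℕ} (A : Set (Fin (n + 1) → ℤ × ℤ)) (a t m : ℕ)
    (ω : Fin (n + 1) → ℤ × ℤ) : ℝ :=
  ∑ᶠ ζ ∈ walks G m, growth G A t m ω ζ * Real.log (growth G A t m ω ζ / free G a t m ω ζ)

/-- The total variation distance of the same two laws. -/
noncomputable def TV (G : Grid) {n : ℕ} (A : Set (Fin (n + 1) → ℤ × ℤ)) (a t m : ℕ)
    (ω : Fin (n + 1) → ℤ × ℤ) : ℝ :=
  1 / 2 * ∑ᶠ ζ ∈ walks G m, |growth G A t m ω ζ - free G a t m ω ζ|

/-- The influence of the first `a` steps and of the conditioning is small, for the uniform element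
of the set `A` of `n`-step walks. -/
def Forgets (G : Grid) (K E : ℝ) {n : ℕ} (A : Set (Fin (n + 1) → ℤ × ℤ)) : Prop :=
  (∀ (a r : ℕ) (τ : ℕ → ℕ), Monotone τ → τ 0 = a → τ r ≤ n →
    mean A (fun ω => ∑ j ∈ Finset.range r, KL G A a (τ j) (τ (j + 1) - τ j) ω) ≤
      K * Real.log (((min a (n - a) : ℕ) : ℝ) + 1) ^ 2 + E ∧
    mean A (fun ω => Real.exp (1 / 4 * ∑ j ∈ Finset.range r,
        TV G A a (τ j) (τ (j + 1) - τ j) ω ^ 2)) ≤
      Real.exp (1 / 4 * (K * Real.log (((min a (n - a) : ℕ) : ℝ) + 1) ^ 2 + E))) ∧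
  ∀ x : ℝ, 0 ≤ x →
    prob A {ω | ¬ ∀ a m : ℕ, 1 ≤ m → a + m ≤ n →
      ∑ t ∈ Finset.Icc a (n - m), TV G A a t m ω ^ 2 ≤
        K * m * (Real.log n ^ 2 + E + x)} ≤ Real.exp (-x)

theorem half_square : (fun p : ℤ × ℤ => 0 ≤ (Grid.square.pt p).im) = fun p => 0 ≤ p.1 := by
  funext p
  show ((0 : ℝ) ≤ (p.1 : ℝ)) = _
  rw [eq_iff_iff]
  exact ⟨fun h => by exact_mod_cast h, fun h => by exact_mod_cast h⟩

theorem half_triangular :
    (fun p : ℤ × ℤ => 0 ≤ (Grid.triangular.pt p).im) = fun p => 0 ≤ p.1 + p.2 := by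
  funext p
  show ((0 : ℝ) ≤ √3 / 2 * ((p.1 : ℝ) + (p.2 : ℝ))) = _
  have h3 : (0 : ℝ) < √3 / 2 := by positivity
  rw [eq_iff_iff, mul_nonneg_iff_of_pos_left h3]
  exact ⟨fun h => by exact_mod_cast h, fun h => by exact_mod_cast h⟩

theorem half_hexagonal :
    (fun p : ℤ × ℤ => 0 ≤ (Grid.hexagonal.pt p).im) = fun p => 0 ≤ p.1 := by
  funext p
  show ((0 : ℝ) ≤ √3 / 2 * (p.1 : ℝ)) = _
  have h3 : (0 : ℝ) < √3 / 2 := by positivity
  rw [eq_iff_iff, mul_nonneg_iff_of_pos_left h3]
  exact ⟨fun h => by exact_mod_cast h, fun h => by exact_mod_cast h⟩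

open Pool.Agent.N932.FL in
/-- transfer from the library -/
theorem forgets_of (G : Grid) (L : Lat (ℤ × ℤ)) {B : ℝ} (hB : L.Quasi B)
    (hw : ∀ n, walks G n = L.walks n) (hs : G.sgn = L.s) {n : ℕ} (hn : 2 ≤ n)
    (A : Set (Fin (n + 1) → ℤ × ℤ)) (hA : A ⊆ walks G n) (hne : A.Nonempty) (E : ℝ)
    (hE : Real.exp (-E) * (walks G n).ncard ≤ A.ncard) : Forgets G (4 * B + 24) E A := by
  have hp : ∀ {n : ℕ} (i m : ℕ) (ω : Fin (n + 1) → ℤ × ℤ), piece G i m ω = L.piece i m ω := by
    intro n i m ω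
    funext k
    unfold piece Lat.piece
    rw [hs]
  have hc : ∀ {N : ℕ} (A : Set (Fin (N + 1) → ℤ × ℤ)) (i m : ℕ) (u : Fin (i + 1) → ℤ × ℤ)
      (ζ : Fin (m + 1) → ℤ × ℤ), cont G A i m u ζ = L.cont A i m u ζ := by
    intro N A i m u ζ
    unfold cont Lat.cont
    simp only [hp]
  have hKL : ∀ a t m (ω : Fin (n + 1) → ℤ × ℤ), KL G A a t m ω = L.KLf A a t m ω := by
    intro a t m ω
    unfold KL Lat.KLf growth Lat.growth free Lat.free
    simp only [hp, hc, hw]
  have hTV : ∀ a t m (ω : Fin (n + 1) → ℤ × ℤ), TV G A a t m ω = L.TVf A a t m ω := by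
    intro a t m ω
    unfold TV Lat.TVf growth Lat.growth free Lat.free
    simp only [hp, hc, hw]
  rw [hw] at hA hE
  obtain ⟨h1, h2⟩ := L.one_sq hB hA hne hE hn
  unfold Forgets
  simp only [hKL, hTV]
  have hB0 := hB.1
  refine ⟨fun a r τ hτ h0 hr => ?_, h2⟩
  obtain ⟨h3, h4⟩ := h1 a r τ hτ h0 hr
  have h5 : B * Real.log (((min a (n - a) : ℕ) : ℝ) + 1) ^ 2 + E ≤
      (4 * B + 24) * Real.log (((min a (n - a) : ℕ) : ℝ) + 1) ^ 2 + E := by
    have := sq_nonneg (Real.log (((min a (n - a) : ℕ) : ℝ) + 1))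
    nlinarith
  exact ⟨h3.trans h5, h4.trans (Real.exp_le_exp.2 (by linarith))⟩

open Pool.Agent.N932.FL in
theorem final_of (G : Grid) (L : Lat (ℤ × ℤ)) {B : ℝ} (hB : L.Quasi B)
    (hw : ∀ n, walks G n = L.walks n) (hs : G.sgn = L.s) {D : ℤ × ℤ → Prop}
    (hD : (fun p : ℤ × ℤ => 0 ≤ (G.pt p).im) = D) (hH : HalfLow L.Adj D) :
    ∃ K : ℝ, 0 < K ∧ ∀ n : ℕ, 2 ≤ n →
      Forgets G K (K * Real.log n ^ 2) (halfWalks G n) ∧
      ∀ A : Set (Fin (n + 1) → ℤ × ℤ), A ⊆ walks G n → A.Nonempty → ∀ E : ℝ,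
        Real.exp (-E) * (walks G n).ncard ≤ A.ncard → Forgets G K E A := by
  obtain ⟨K1, hK1, h1⟩ := hH
  have hB0 := hB.1
  have hmono : ∀ {n : ℕ} {A : Set (Fin (n + 1) → ℤ × ℤ)} {K K' E E' : ℝ}, A.Finite → 0 ≤ K →
      K ≤ K' → 0 ≤ E → E ≤ E' → Forgets G K E A → Forgets G K' E' A := by
    intro n A K K' E E' hf hK hKK hE hEE h
    refine ⟨fun a r τ hτ h0 hr => ?_, fun x hx => ?_⟩
    · obtain ⟨h2, h3⟩ := h.1 a r τ hτ h0 hr
      have h4 : K * Real.log (((min a (n - a) : ℕ) : ℝ) + 1) ^ 2 + E ≤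
          K' * Real.log (((min a (n - a) : ℕ) : ℝ) + 1) ^ 2 + E' :=
        add_le_add (mul_le_mul_of_nonneg_right hKK (sq_nonneg _)) hEE
      exact ⟨h2.trans h4, h3.trans (Real.exp_le_exp.2 (by linarith))⟩
    · refine le_trans ?_ (h.2 x hx)
      unfold prob mean
      refine div_le_div_of_nonneg_right ?_ (Nat.cast_nonneg _)
      rw [finsum_mem_eq_finite_toFinset_sum _ hf, finsum_mem_eq_finite_toFinset_sum _ hf]
      refine Finset.sum_le_sum (fun ω _ => ?_)
      by_cases hP : ω ∈ {ω | ¬ ∀ a m : ℕ, 1 ≤ m → a + m ≤ n →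
          ∑ t ∈ Finset.Icc a (n - m), TV G A a t m ω ^ 2 ≤
            K * m * (Real.log n ^ 2 + E + x)}
      · rw [if_pos hP]
        split_ifs
        · exact le_rfl
        · exact zero_le_one
      · rw [if_neg hP, if_neg]
        intro hbad
        apply hbad
        intro a m hm ham
        refine (not_not.1 hP a m hm ham).trans ?_
        have h5 := sq_nonneg (Real.log (n : ℝ))
        have hK' : 0 ≤ K' := hK.trans hKK
        gcongr
  refine ⟨4 * B + 24 + K1, by linarith, fun n hn => ?_⟩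
  have hfin : (walks G n).Finite := by rw [hw]; exact L.finite n
  have hall : ∀ A : Set (Fin (n + 1) → ℤ × ℤ), A ⊆ walks G n → A.Nonempty → ∀ E : ℝ,
      Real.exp (-E) * (walks G n).ncard ≤ A.ncard → Forgets G (4 * B + 24) E A :=
    fun A hA hne E hE => forgets_of G L hB hw hs hn A hA hne E hE
  have hE0 : ∀ A : Set (Fin (n + 1) → ℤ × ℤ), A ⊆ walks G n → ∀ E : ℝ,
      Real.exp (-E) * (walks G n).ncard ≤ A.ncard → 0 ≤ E := by
    intro A hA E hE
    have hle : (A.ncard : ℝ) ≤ (walks G n).ncard := by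
      exact_mod_cast Set.ncard_le_ncard hA hfin
    have hc : (0 : ℝ) < (walks G n).ncard := by rw [hw]; exact L.card0 n
    have h3 : Real.exp (-E) ≤ 1 := by
      by_contra hcon
      push Not at hcon
      have := mul_lt_mul_of_pos_right hcon hc
      linarith
    have := Real.exp_le_one_iff.1 h3
    linarith
  refine ⟨?_, fun A hA hne E hE => hmono (hfin.subset hA) (by linarith) (by linarith)
    (hE0 A hA E hE) le_rfl (hall A hA hne E hE)⟩
  have hhalf : halfWalks G n = {f : Fin (n + 1) → ℤ × ℤ | f 0 = 0 ∧ Function.Injective f ∧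
      (∀ i : Fin n, L.Adj (f i.castSucc) (f i.succ)) ∧ ∀ i, D (f i)} := by
    ext f
    unfold halfWalks
    rw [hw, ← hD]
    constructor
    · rintro ⟨⟨h2, h3, h4⟩, h5⟩
      exact ⟨h2, h3, h4, h5⟩
    · rintro ⟨h2, h3, h4, h5⟩
      exact ⟨⟨h2, h3, h4⟩, h5⟩
  have hlow := h1 n hn
  have hsub : halfWalks G n ⊆ walks G n := fun f hf => hf.1
  have hE : Real.exp (-(K1 * Real.log n ^ 2)) * (walks G n).ncard ≤ (halfWalks G n).ncard := by
    rw [hhalf, hw]
    exact hlow
  have hne : (halfWalks G n).Nonempty := by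
    have hc : (0 : ℝ) < (walks G n).ncard := by rw [hw]; exact L.card0 n
    have h2 : (0 : ℝ) < (halfWalks G n).ncard :=
      lt_of_lt_of_le (mul_pos (Real.exp_pos _) hc) hE
    have h3 : 0 < (halfWalks G n).ncard := by exact_mod_cast h2
    exact (Set.ncard_pos (hfin.subset hsub)).1 h3
  have h5 := sq_nonneg (Real.log (n : ℝ))
  refine hmono (hfin.subset hsub) (by linarith) (by linarith) (by positivity) ?_
    (hall _ hsub hne _ hE)
  exact mul_le_mul_of_nonneg_right (by linarith) h5

open Pool.Agent.N932.FL in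
/-- **The half-plane self-avoiding walk forgets the boundary and its remote past.** For each of the
three grids there is `K` such that for all `n ≥ 2`, with `E = K (log n)²` for the uniform `n`-step
walk in the closed upper half-plane, and for the uniform element of every nonempty set `A` of
`n`-step walks with `|A| ≥ e^{-E} c_n`:
(1) for every `a` and every partition `a = τ₀ ≤ τ₁ ≤ … ≤ τ_r ≤ n`, the relative entropies of the
growth law over the blocks, given the walk up to the beginning of the block, with respect to the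
free growth law with the first `a` steps erased have a sum of mean at most
`K (log (min (a, n - a) + 1))² + E`, and the exponential moment of a quarter of the sum of the
squared total variation distances is at most the exponential of a quarter of this number;
(2) with probability at least `1 - exp (-x)`, for all `a` and all window lengths `m`
simultaneously, the squared total variation distances have sum at most
`K m ((log n)² + E + x)` over the times `t` in `[a, n - m]`. -/
theorem result : ∀ G : Grid, ∃ K : ℝ, 0 < K ∧ ∀ n : ℕ, 2 ≤ n →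
    Forgets G K (K * Real.log n ^ 2) (halfWalks G n) ∧
    ∀ A : Set (Fin (n + 1) → ℤ × ℤ), A ⊆ walks G n → A.Nonempty → ∀ E : ℝ,
      Real.exp (-E) * (walks G n).ncard ≤ A.ncard → Forgets G K E A := by
  intro G
  cases G with
  | square =>
    obtain ⟨B, hB⟩ := quasi_sq
    exact final_of .square sqLat hB (fun _ => rfl) rfl half_square halfLow_sq
  | triangular =>
    obtain ⟨B, hB⟩ := quasi_tri
    exact final_of .triangular triLat hB (fun _ => rfl) rfl half_triangular halfLow_tri
  | hexagonal =>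
    obtain ⟨B, hB⟩ := quasi_hex
    exact final_of .hexagonal hexLat hB (fun _ => rfl) rfl half_hexagonal halfLow_hex

end Pool.Agent.Results.MP_df1d0b_pr.ForgetsBoundary
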