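import Pool.Agent.N949.HS.All

/-!
The possible shapes of the infinite half-plane self-avoiding walk on the hexagonal grid: every curve
from `0` to `∞` in the closed half-plane which is a limit of simple curves is followed by the scaled
walk at every scale, with a probability which is at least a power of the scale; all other curves are
never followed.
-/

set_option autoImplicit false

namespace Pool.Agent.Results.MP_df1d0b_pr.PossibleShapes

open Filter Topology MeasureTheory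
open scoped ENNReal

/-- `e^{iπ/3}` -/
noncomputable def Om : ℂ := ⟨1 / 2, Real.sqrt 3 / 2⟩

/-- the hexagonal grid with edge length one and a vertex at `0` (the triangular grid without the
centres of the hexagons) -/
def HexG : Set ℂ := {z | ∃ a b : ℤ, (a - b) % 3 ≠ 2 ∧ z = a + b * Om}

/-- the grid `Λ` multiplied by `u` -/
def rot (u : ℂ) (Λ : Set ℂ) : Set ℂ := {z | ∃ w ∈ Λ, z = u * w}

/-- self-avoiding walks with `n` steps in the closed upper half-plane, starting at `0`, with steps of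
length `r` between points of `Λ`; a walk is continued by its last point -/
def PW (Λ : Set ℂ) (r : ℝ) (n : ℕ) : Set (ℕ → ℂ) :=
  {γ | γ 0 = 0 ∧ (∀ i, γ i ∈ Λ ∧ 0 ≤ (γ i).im) ∧ (∀ i < n, ‖γ (i + 1) - γ i‖ = r) ∧
    (∀ i ≤ n, ∀ j ≤ n, γ i = γ j → i = j) ∧ ∀ i, n ≤ i → γ i = γ n}

/-- closeness on the Riemann sphere: `z` and `w` have distance less than `ε`, or both are within
`ε` of `∞` -/
def Near (ε : ℝ) (z w : ℂ) : Prop := ‖z - w‖ < ε ∨ (1 / ε < ‖z‖ ∧ 1 / ε < ‖w‖)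

/-- a simple curve `β : [0, ∞) → ℂ` from `0` to `∞` in the closed upper half-plane -/
structure Simple (β : ℝ → ℂ) : Prop where
  cont : ContinuousOn β (Set.Ici 0)
  inj : Set.InjOn β (Set.Ici 0)
  zero : β 0 = 0
  im : ∀ t, 0 ≤ t → 0 ≤ (β t).im
  lim : Tendsto (fun t => ‖β t‖) atTop atTop

/-- `β` is a uniform limit, on the sphere, of simple curves from `0` to `∞` in the closed upper
half-plane -/
def Lim (β : ℝ → ℂ) : Prop :=
  ∀ ε : ℝ, 0 < ε → ∃ α : ℝ → ℂ, Simple α ∧ ∀ t, 0 ≤ t → Near ε (α t) (β t)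

/-- The scaled walk `s γ` follows the curve `β : [0, ∞) → ℂ` up to `ε`, on the sphere: the time axis
is cut at times `0 = τ 0 ≤ τ 1 ≤ τ 2 ≤ … → ∞` such that the point `s γ i` of the scaled walk is
`ε`-close to all points of `β` on `[τ i, τ (i + 1)]`. -/
def Follows (ε s : ℝ) (γ : ℕ → ℂ) (β : ℝ → ℂ) : Prop :=
  ∃ τ : ℕ → ℝ, τ 0 = 0 ∧ Monotone τ ∧ Tendsto τ atTop atTop ∧
    ∀ (i : ℕ) (x : ℝ), τ i ≤ x → x ≤ τ (i + 1) → Near ε (s * γ i) (β x)

/-- For the hexagonal grid of edge length `‖u‖` with a vertex at `0` and an edge at `0`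
perpendicular to the real line, let `γ` be the infinite half-plane self-avoiding walk (its law is the
weak limit `μ` of the uniform measures on `n`-step half-plane walks), and let `β : [0, ∞) → ℂ` be a
continuous curve which tends to `∞`.
(1) If `β` is a limit of simple curves from `0` to `∞` in the closed upper half-plane, then for every
`ε > 0` there is `C` such that `s γ` follows `β` up to `ε` with probability at least `s ^ C`, for all
`0 < s ≤ 1 / C`.
(2) Otherwise there is `ε > 0` such that `s γ` follows `β` up to `ε` with probability zero, for all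
`0 < s ≤ ε`. -/
theorem result (u : ℂ) (hu : u ≠ 0) (hv : ∃ z ∈ rot u HexG, ‖z‖ = ‖u‖ ∧ z.re = 0) :
    ∃ μ : Measure (ℕ → ℂ), IsProbabilityMeasure μ ∧
      (∀ᵐ γ ∂μ, γ 0 = 0 ∧ (∀ i, γ i ∈ rot u HexG ∧ 0 ≤ (γ i).im) ∧
        (∀ i, ‖γ (i + 1) - γ i‖ = ‖u‖) ∧ Function.Injective γ) ∧
      (∀ F : BoundedContinuousFunction (ℕ → ℂ) ℝ,
        Tendsto (fun n => (∑ᶠ γ ∈ PW (rot u HexG) ‖u‖ n, F γ) /
          ((PW (rot u HexG) ‖u‖ n).ncard : ℝ)) atTop (𝓝 (∫ γ, F γ ∂μ))) ∧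
      ∀ β : ℝ → ℂ, ContinuousOn β (Set.Ici 0) → Tendsto (fun t => ‖β t‖) atTop atTop →
        (Lim β → ∀ ε : ℝ, 0 < ε → ∃ C : ℕ, 1 ≤ C ∧ ∀ s : ℝ, 0 < s → C * s ≤ 1 →
          ENNReal.ofReal (s ^ C) ≤ μ {γ | Follows ε s γ β}) ∧
        (¬ Lim β → ∃ ε : ℝ, 0 < ε ∧ ∀ s : ℝ, 0 < s → s ≤ ε →
          μ {γ | Follows ε s γ β} = 0) := by
  obtain ⟨μ, h1, h2, h3, h4⟩ := Pool.Agent.N949.HS.all u hu hv
  refine ⟨μ, h1, h2, h3, fun β hβ hβ' => ?_⟩
  have e : Lim β ↔ Pool.Agent.N949.HS.Lim β := by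
    constructor
    · intro h ε hε
      obtain ⟨α, ⟨a1, a2, a3, a4, a5⟩, h'⟩ := h ε hε
      exact ⟨α, ⟨a1, a2, a3, a4, a5⟩, h'⟩
    · intro h ε hε
      obtain ⟨α, ⟨a1, a2, a3, a4, a5⟩, h'⟩ := h ε hε
      exact ⟨α, ⟨a1, a2, a3, a4, a5⟩, h'⟩
  obtain ⟨g1, g2⟩ := h4 β hβ hβ'
  exact ⟨fun h => g1 (e.1 h), fun h => g2 fun h' => h (e.2 h')⟩

end Pool.Agent.Results.MP_df1d0b_pr.PossibleShapes
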